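import Pool.Agent.Lib.MP_49fa77_co.H30.Iface

/-!
# Row TO: the total is nonnegative
-/

set_option autoImplicit false

namespace FT58.AS.H65

open Real MeasureTheory Set Metric Filter Relation FT58 FT58.AS

section
open Classical

/-- The initial state for `P = S`. -/
lemma St_self (S : Finset ℂ) : St S S (Se S) (MX S S) := by
  refine ⟨(MX_Rg S S).toFam, fun c q r h => (MX_Rg S S).tr _ _ _ h, ?_, ?_, ?_, ?_⟩
  · intro c q r h
    rcases (MX_Rg S S).bd _ _ _ h with h' | h'
    · exact Or.inl h'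
    · exact Or.inr h'.2
  · intro c q r h hs
    have h1 := (MX_Rg S S).tr _ _ _ h
    exact ⟨(Tr_ne h1).1, Tr_Ed h1, hs⟩
  · intro c q h; exact Se_symm h
  · intro c q h; exact h

/-- The value of the initial state for `P = S`. -/
lemma FV_self {D : ℝ} (S : Finset ℂ) :
    sE S (Eg S) (asg2 D S (MX S S)) = FV D S S (Se S) (MX S S) := by
  unfold FV
  rw [sE_split (X := Eg S) (Y := Lf (MX S S))]
  congr 1
  · apply sE_congr
    · intro c _ q _
      constructor
      · exact fun h => h.2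
      · rintro ⟨r, hr⟩
        have h1 := (MX_Rg S S).tr _ _ _ hr
        exact ⟨⟨(Tr_ne h1).1, Tr_Ed h1⟩, r, hr⟩
    · intro c _ q _ h
      unfold asg2
      rw [if_pos h.2]
  · unfold sE
    refine Finset.sum_congr rfl fun c _ => Finset.sum_congr rfl fun q _ => ?_
    by_cases h1 : Lf (MX S S) c q
    · rw [if_neg (fun h => h.2 h1), if_neg (fun h => h.2 h1)]
    · by_cases h2 : Eg S c q
      · rw [if_pos ⟨h2, h1⟩]
        unfold asg2 gv gs
        rw [if_neg h1]
        by_cases h3 : Sh c q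
        · rw [if_pos h3, if_pos ⟨⟨h2.1, h2.2, h3⟩, h1⟩]
        · rw [if_neg h3, if_neg (fun h => h3 h.1.2.2)]
      · rw [if_neg (fun h => h2 h.1), if_neg (fun h => h2 ⟨h.1.1, h.1.2.1⟩)]

/-- Row TO. -/
theorem to_st (hCT : CtS) (hCL : ClS) (hRG : RgS) (hGO : GoS) : ToS := by
  intro n c δ e S cl p t hLb D hD hD1 hAl
  have hG : Gen S := hLb.gen
  have hne : S.Nonempty := hLb.ne
  have hD0 : 0 ≤ D := by linarith
  obtain ⟨J, hJS, hJ, hJc⟩ := hCL n c δ e S cl p t hLb
  have hcard : 0 < S.card := Finset.card_pos.mpr hne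
  have hn : 1 ≤ n := by
    rcases Nat.eq_zero_or_pos n with h | h
    · rw [h, zero_mul] at hJ
      omega
    · exact h
  have hcount := hCT S hG hne J hJS hJc
  -- signs
  have hAl0 : 0 ≤ Al D := by
    unfold Al
    have h1 : 0 ≤ 1 - D := by linarith
    positivity
  have hn1 : (0 : ℝ) ≤ (n : ℝ) - 1 := by
    have : (1 : ℝ) ≤ (n : ℝ) := by exact_mod_cast hn
    linarith
  have hk : 0 ≤ kap D := le_trans (mul_nonneg hAl0 hn1) hAl
  -- reduction to the state
  have h1 := asg2_le hD0 hG (MX_Rg S S).toFam (by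
    intro x y z hT s1 s2 s3
    exact MX_short (Finset.Subset.refl S) hT hT.1 hT.2.1 hT.2.2.1 s1 s2 s3)
  rw [FV_self] at h1
  obtain ⟨E, T, hst, hfv, hcnt, hgood⟩ := cut_all (D := D) hD0 (nE S (Lf (MX S S))) (Se S) (MX S S)
    (St_self S) rfl
  have hb := hRG D S T hD hD1 hst.fam hst.bd hgood
  have h2 : -(kap D + Al D) * nE S (fun c q => E c q ∧ ¬ Lf T c q)
      ≤ sE S (fun c q => E c q ∧ ¬ Lf T c q) (gs D) := by
    rw [← sE_const]
    apply sE_mono
    intro x _ y _ h
    have hse := hst.se _ _ h.1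
    have p1 : 0 < ‖y - x‖ := norm_pos_iff.mpr (sub_ne_zero.mpr (Ne.symm hse.1))
    have hs := hse.2.2
    unfold Sh at hs
    have h3 := hGO D (‖y - x‖ / 2) hD hD1 (by positivity) (by linarith)
    unfold gs
    rw [gg_eq]
    have h4 : 3 * √3 / 4 * (1 - D) ≤ Al D := by
      unfold Al
      nlinarith [sq_nonneg (1 - D)]
    linarith
  unfold FV at hfv
  -- counting
  have hcntR : (3 * nE S (fun c q => E c q ∧ ¬ Lf T c q) + nE S (Lf T) : ℝ)
      = 3 * nE S (fun c q => Se S c q ∧ ¬ Lf (MX S S) c q) + nE S (Lf (MX S S)) := by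
    exact_mod_cast hcnt
  have hJR : (S.card : ℝ) = n * J.card := by
    rw [← hJ]; push_cast; rfl
  have hKA : 0 ≤ kap D + Al D := by linarith
  have h5 : (nE S (fun c q => E c q ∧ ¬ Lf T c q) : ℝ) + nE S (Lf T) / 3 + 2 * J.card
      ≤ 2 * S.card := by linarith
  have h6 := mul_le_mul_of_nonneg_left h5 hKA
  have h7 : 0 ≤ (J.card : ℝ) * (kap D - Al D * ((n : ℝ) - 1)) :=
    mul_nonneg (Nat.cast_nonneg _) (by linarith)
  have h8 : -(kap D + Al D) * (2 * S.card - 2 * J.card)
      ≤ sE S (Eg S) (val2 D S) := by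
    unfold FV at h1
    linarith
  rw [hJR] at h8 ⊢
  nlinarith

end

end FT58.AS.H65
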