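import Pool.Agent.Lib.MP_49fa77_co.H30.Iface

/-!
# Row HB: pairs of ends
-/

set_option autoImplicit false

namespace FT58.AS.H65

open Real MeasureTheory Set intervalIntegral FT58 FT58.AS

/-- Row HB. -/
theorem hb_st (hHA : HaS) : HbS := by
  intro D a β ω hD hD1 ha ha1 hβ0 hβω hω1 hβ1 hcos
  have hcβ : 0 < cos β := cos_pos_of_mem_Ioo ⟨by linarith [pi_pos], hβ1⟩
  have hcβ1 : cos β ≤ 1 := cos_le_one β
  have hcωβ : cos ω ≤ cos β :=
    cos_le_cos_of_nonneg_of_le_pi hβ0 (by linarith [pi_pos]) hβω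
  have hHa := hHA D (cos β) ω hD hD1 hcβ hcβ1 (le_trans hβ0 hβω) hω1 hcωβ
  -- the value at `β`
  have hM : ∀ B : ℝ, 1 ≤ B → Mi (cos β) B β = sin (2 * β) / 2 := by
    intro B hB
    have h1 : cos β ^ 2 ≤ B * cos β ^ 2 := by nlinarith [sq_nonneg (cos β)]
    rw [Mi_tan_nonneg (by linarith) hβ0 hβ1 h1, tan_eq_sin_div_cos, sin_two_mul]
    field_simp
  have hHβ : Hh D (cos β) β = -(1 - D) * (sin (2 * β) / 2) := by
    unfold Hh
    rw [hM (4 / 3) (by norm_num), hM 1 le_rfl]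
    ring
  -- comparison of the integrals
  have hone : ∀ b : ℝ, 0 < b → cos β ≤ b → Mi b 1 ω - Mi b 1 β = ω - β := by
    intro b hb hbc
    rw [Mi_sub hb one_pos]
    have h1 : (∫ θ in β..ω, mi b 1 θ) = ∫ θ in β..ω, (1 : ℝ) := by
      apply integral_congr
      intro θ hθ
      rw [uIcc_of_le hβω] at hθ
      apply mi_eq_B hb one_pos
      have hx : cos θ ≤ cos β :=
        cos_le_cos_of_nonneg_of_le_pi hβ0 (by linarith [hθ.2, pi_pos]) hθ.1
      have hx0 : 0 ≤ cos θ := cos_nonneg_of_mem_Icc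
        ⟨by linarith [hθ.1, pi_pos], by linarith [hθ.2]⟩
      nlinarith
    rw [h1, intervalIntegral.integral_const, smul_eq_mul, mul_one]
  have hmono : Mi (cos β) (4 / 3) ω - Mi (cos β) (4 / 3) β ≤
      Mi a (4 / 3) ω - Mi a (4 / 3) β := by
    rw [Mi_sub hcβ (by norm_num), Mi_sub ha (by norm_num)]
    apply integral_mono_on hβω (mi_intInt hcβ (by norm_num) _ _)
      (mi_intInt ha (by norm_num) _ _)
    intro θ _
    exact mi_mono_a hcβ hcos (by norm_num)
  have h1 := hone (cos β) hcβ le_rfl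
  have h2 := hone a ha hcos
  have h3 : D * (Mi (cos β) (4 / 3) ω - Mi (cos β) (4 / 3) β) ≤
      D * (Mi a (4 / 3) ω - Mi a (4 / 3) β) :=
    mul_le_mul_of_nonneg_left hmono (by linarith)
  have h4 : Hh D (cos β) ω - Hh D (cos β) β ≤ Hh D a ω - Hh D a β := by
    unfold Hh
    nlinarith
  have h5 : sin (2 * ω) - sin (2 * β) = 2 * (sin (ω - β) * cos (ω + β)) := by
    rw [sin_two_mul, sin_two_mul, sin_sub, cos_add]
    have e1 := sin_sq_add_cos_sq ω
    have e2 := sin_sq_add_cos_sq β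
    have e3 : cos ω ^ 2 = 1 - sin ω ^ 2 := by linarith
    have e4 : cos β ^ 2 = 1 - sin β ^ 2 := by linarith
    ring_nf
    rw [e3, e4]
    ring
  have h6 : 0 ≤ sin (ω - β) :=
    sin_nonneg_of_nonneg_of_le_pi (by linarith) (by linarith [pi_pos])
  have h7 : sin (ω - β) * cos (ω + β) ≤ sin (ω - β) := by
    nlinarith [cos_le_one (ω + β)]
  have h8 : 0 ≤ 1 - D := by linarith
  have h9 := mul_le_mul_of_nonneg_left h7 h8
  rw [hHβ] at h4
  nlinarith

end FT58.AS.H65
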